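import Mathlib
import Pool.Agent.Helper292.ForceCH

open Topology Pointwise Set Cardinal

set_option linter.all false

namespace Pool.Agent.Results.MP_b00c97_gt.ConsistentlyYes

section defs
variable {G : Type*} [AddGroup G] [TopologicalSpace G]

/-- `A ⊆ G` is `o`-bounded (additive notation): for every sequence of neighbourhoods `U n` of `0`
there are finite sets `F n ⊆ G` with `A ⊆ ⋃ n, F n + U n`. -/
def OBounded (A : Set G) : Prop :=
  ∀ U : ℕ → Set G, (∀ n, U n ∈ 𝓝 (0 : G)) → ∃ F : ℕ → Finset G, A ⊆ ⋃ n, (F n : Set G) + U n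

/-- Player I has a winning strategy in the game `OF(A)`: a rule `σ` which assigns to the list
`[F 0, ..., F (n - 1)]` of the earlier moves of player II a neighbourhood of `0`, such that
no sequence `F` of finite sets satisfies `A ⊆ ⋃ n, F n + U n`, where
`U n = σ [F 0, ..., F (n - 1)]`. -/
def PlayerIWins (A : Set G) : Prop :=
  ∃ σ : List (Finset G) → Set G, (∀ L, σ L ∈ 𝓝 (0 : G)) ∧
    ∀ F : ℕ → Finset G, ¬ A ⊆ ⋃ n, (F n : Set G) + σ ((List.range n).map F)

end defs

/-! ### Recursion along a well-order -/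

theorem exists_rec {I : Type*} [LinearOrder I] [WellFoundedLT I] {X : Type*} [Inhabited X]
    (Phi : I → (I → X) → X → Prop)
    (hloc : ∀ i (D D' : I → X) x, (∀ j, j < i → D j = D' j) → Phi i D x → Phi i D' x)
    (hex : ∀ i D, ∃ x, Phi i D x) : ∃ D : I → X, ∀ i, Phi i D (D i) := by
  classical
  let step : (i : I) → ((j : I) → j < i → X) → X := fun i D =>
    Classical.choose (hex i (fun j => if h : j < i then D j h else default))
  let D : I → X := WellFounded.fix (wellFounded_lt (α := I)) step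
  refine ⟨D, fun i => ?_⟩
  have h1 : D i = step i (fun j _ => D j) := WellFounded.fix_eq _ _ _
  have h2 : Phi i (fun j => if h : j < i then D j else default) (step i (fun j _ => D j)) :=
    Classical.choose_spec (hex i (fun j => if h : j < i then D j else default))
  rw [← h1] at h2
  refine hloc i _ _ _ ?_ h2
  intro j hj
  simp [hj]

/-! ### The jumps -/

open Classical in
/-- the lower bound required at the place `t` for the play with the sequence `k` -/
noncomputable def B (k : ℕ → ℕ) (t : ℕ) : ℕ :=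
  if h : ∃ l, k l = t + 1 then k (Classical.choose h + 1) else 0

theorem B_spec {k : ℕ → ℕ} (hk : StrictMono k) (l t : ℕ) (ht : k l = t + 1) :
    B k t = k (l + 1) := by
  have h : ∃ l, k l = t + 1 := ⟨l, ht⟩
  have h2 : Classical.choose h = l := hk.injective ((Classical.choose_spec h).trans ht.symm)
  unfold B
  rw [dif_pos h, h2]

theorem B_le {k : ℕ → ℕ} (hk : StrictMono k) (l t : ℕ) (ht : t + 1 < k l) : B k t ≤ k l := by
  unfold B
  split_ifs with h
  · have h2 := Classical.choose_spec h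
    have h3 : Classical.choose h < l := by
      rw [← hk.lt_iff_lt, h2]; exact ht
    exact hk.monotone h3
  · exact Nat.zero_le _

/-- force the bound -/
noncomputable def fix (k : ℕ → ℕ) (y : ℕ → ℤ) (t : ℕ) : ℤ :=
  if (B k t : ℤ) ≤ |y t| then y t else B k t

theorem le_fix (k : ℕ → ℕ) (y : ℕ → ℤ) (t : ℕ) : (B k t : ℤ) ≤ |fix k y t| := by
  unfold fix
  split_ifs with h
  · exact h
  · rw [abs_of_nonneg (by positivity)]

theorem exists_approx (a c : ℤ) (hc : c ≠ 0) (b : ℕ) :
    ∃ z : ℤ, (b : ℤ) ≤ |z| ∧ |a + c * z| ≤ |c| * (2 * b + 1) := by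
  have h1 : |a + c * (-(a / c))| ≤ |c| := by
    have : a + c * (-(a / c)) = a % c := by
      rw [Int.emod_def]; ring
    rw [this, abs_of_nonneg (Int.emod_nonneg a hc)]
    exact (Int.emod_lt_abs a hc).le
  by_cases h : (b : ℤ) ≤ |-(a / c)|
  · refine ⟨_, h, h1.trans ?_⟩
    nlinarith [abs_nonneg c, Int.natCast_nonneg b]
  · refine ⟨b, by simp, ?_⟩
    push Not at h
    have h2 : a + c * b = (a + c * (-(a / c))) + c * (b - (-(a / c))) := by ring
    rw [h2]
    refine (abs_add_le _ _).trans ?_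
    rw [abs_mul c]
    have h3 : |(b : ℤ) - -(a / c)| ≤ 2 * b := by
      rw [abs_le]
      rw [abs_lt] at h
      constructor <;> linarith [h.1, h.2]
    nlinarith [abs_nonneg c]

/-- the set of the good functions -/
def Good (k : ℕ → ℕ) (g : ℕ → ℤ) (c : ℤ) (N : ℕ) : Set (ℕ → ℤ) :=
  {y | ∃ n, N ≤ n ∧ ∀ t < n, |g t + c * fix k y t| ≤ (n : ℤ) * n}

theorem isOpen_good (k : ℕ → ℕ) (g : ℕ → ℤ) (c : ℤ) (N : ℕ) : IsOpen (Good k g c N) := by
  have : Good k g c N = ⋃ n : ℕ, ⋃ _ : N ≤ n, ⋂ t ∈ Finset.range n,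
      (fun y : ℕ → ℤ => y t) ⁻¹' {v | |g t + c * (if (B k t : ℤ) ≤ |v| then v else B k t)| ≤
        (n : ℤ) * n} := by
    ext y
    simp [Good, fix]
  rw [this]
  refine isOpen_iUnion fun n => isOpen_iUnion fun _ => ?_
  refine isOpen_biInter_finset fun t _ => ?_
  exact (isOpen_discrete _).preimage (continuous_apply t)

theorem dense_good {k : ℕ → ℕ} (hk : StrictMono k) (g : ℕ → ℤ) {c : ℤ} (hc : c ≠ 0) (N : ℕ) :
    Dense (Good k g c N) := by
  classical
  choose z hz1 hz2 using fun t => exists_approx (g t) c hc (B k t)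
  intro y
  refine mem_closure_of_tendsto (b := Filter.atTop)
    (f := fun m : ℕ => fun t => if t < m then y t else z t) ?_ (Filter.Eventually.of_forall ?_)
  · rw [tendsto_pi_nhds]
    intro t
    refine tendsto_const_nhds.congr' ?_
    filter_upwards [Filter.eventually_gt_atTop t] with m hm
    simp [hm]
  · intro m
    -- a bound for the first `m` values
    obtain ⟨C, hC⟩ : ∃ C : ℕ, ∀ t < m, |g t + c * fix k y t| ≤ C := by
      refine ⟨∑ t ∈ Finset.range m, (g t + c * fix k y t).natAbs, fun t ht => ?_⟩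
      rw [Int.abs_eq_natAbs]
      exact_mod_cast Finset.single_le_sum (f := fun t => (g t + c * fix k y t).natAbs)
        (fun _ _ => Nat.zero_le _) (Finset.mem_range.2 ht)
    let l : ℕ := N + C + 5 * c.natAbs + 5
    have hl : l ≤ k l := hk.le_apply
    refine ⟨k l - 1, by omega, fun t ht => ?_⟩
    have hcast : ((k l - 1 : ℕ) : ℤ) = (k l : ℤ) - 1 := by omega
    rw [hcast]
    have hlk : (l : ℤ) ≤ k l := by exact_mod_cast hl
    have hl' : (l : ℤ) = N + C + 5 * |c| + 5 := by
      simp only [l]; push_cast; rfl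
    have habs := abs_nonneg c
    by_cases htm : t < m
    · have h1 : fix k (fun t => if t < m then y t else z t) t = fix k y t := by
        simp [fix, htm]
      rw [h1]
      refine (hC t htm).trans ?_
      nlinarith
    · have h1 : fix k (fun t => if t < m then y t else z t) t = z t := by
        simp only [fix, htm, if_false]
        rw [if_pos (hz1 t)]
      rw [h1]
      refine (hz2 t).trans ?_
      have h2 : (B k t : ℤ) ≤ k l := by exact_mod_cast B_le hk l t (by omega)
      have h3 : |c| * (2 * (B k t : ℤ) + 1) ≤ |c| * (2 * k l + 1) := by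
        refine mul_le_mul_of_nonneg_left (by linarith) habs
      refine h3.trans ?_
      nlinarith

/-! ### The group -/

/-- the requirement at stage `i` -/
def Req {I : Type} [LinearOrder I] (e : I → ℕ → ℕ) (i : I) (D : I → ℕ → ℤ) (x : ℕ → ℤ) : Prop :=
  StrictMono (e i) → (∀ l t, e i l = t + 1 → (e i (l + 1) : ℤ) ≤ |x t|) ∧
    ∀ L : {j : I // j < i} →₀ ℤ, ∀ c : ℤ, c ≠ 0 → ∀ N : ℕ, ∃ n, N ≤ n ∧ ∀ t < n,
      |(L.sum fun j a => a • D j.1) t + c * x t| ≤ (n : ℤ) * n

theorem exists_req {I : Type} [LinearOrder I] [WellFoundedLT I] (e : I → ℕ → ℕ)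
    (hI : ∀ i : I, #{j : I // j < i} < 𝔠)
    (hcov : ∀ S : Set (Set (ℕ → ℤ)), #S < 𝔠 → (∀ U ∈ S, IsOpen U ∧ Dense U) → (⋂₀ S).Nonempty) :
    ∃ D : I → ℕ → ℤ, ∀ i, Req e i D (D i) := by
  refine exists_rec (Req e) ?_ ?_
  · intro i D D' x h hx hmono
    obtain ⟨h1, h2⟩ := hx hmono
    refine ⟨h1, fun L c hc N => ?_⟩
    obtain ⟨n, hn, h3⟩ := h2 L c hc N
    refine ⟨n, hn, fun t ht => ?_⟩
    have h4 : (L.sum fun j a => a • D' j.1) = L.sum fun j a => a • D j.1 := by
      refine Finsupp.sum_congr fun j _ => ?_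
      rw [h j.1 j.2]
    rw [h4]
    exact h3 t ht
  · intro i D
    by_cases hmono : StrictMono (e i)
    swap
    · exact ⟨0, fun h => absurd h hmono⟩
    let T := ({j : I // j < i} →₀ ℤ) × ({c : ℤ // c ≠ 0} × ℕ)
    let F : T → Set (ℕ → ℤ) := fun τ => Good (e i) (τ.1.sum fun j a => a • D j.1) τ.2.1.1 τ.2.2
    have hT : #T < 𝔠 := by
      have h1 : #({j : I // j < i} →₀ ℤ) < 𝔠 := by
        rcases isEmpty_or_nonempty {j : I // j < i} with hE | hE
        · haveI : Unique ({j : I // j < i} →₀ ℤ) := inferInstance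
          rw [Cardinal.mk_eq_one]
          exact (Cardinal.one_lt_aleph0).trans Cardinal.aleph0_lt_continuum
        · rw [Cardinal.mk_finsupp_of_infinite']
          refine max_lt (hI i) ?_
          rw [Cardinal.mk_int]
          exact Cardinal.aleph0_lt_continuum
      have h2 : #({c : ℤ // c ≠ 0} × ℕ) < 𝔠 :=
        (Cardinal.mk_le_aleph0).trans_lt Cardinal.aleph0_lt_continuum
      have h3 : #T = #({j : I // j < i} →₀ ℤ) * #({c : ℤ // c ≠ 0} × ℕ) := by
        simp only [T, Cardinal.mk_prod, Cardinal.lift_id]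
      rw [h3]
      exact Cardinal.mul_lt_of_lt Cardinal.aleph0_le_continuum h1 h2
    obtain ⟨y, hy⟩ := hcov (range F) (Cardinal.mk_range_le.trans_lt hT) (by
      rintro U ⟨τ, rfl⟩
      exact ⟨isOpen_good _ _ _ _, dense_good hmono _ τ.2.1.2 _⟩)
    refine ⟨fix (e i) y, fun _ => ⟨fun l t hl => ?_, fun L c hc N => ?_⟩⟩
    · have := le_fix (e i) y t
      rwa [B_spec hmono l t hl] at this
    · have := hy (F (L, ⟨c, hc⟩, N)) ⟨_, rfl⟩
      exact this

theorem small {I : Type} [LinearOrder I] {e : I → ℕ → ℕ} (he : ∀ i, StrictMono (e i))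
    {D : I → ℕ → ℤ} (hD : ∀ i, Req e i D (D i)) (g : ℕ → ℤ)
    (hg : g ∈ Submodule.span ℤ (range D)) (N : ℕ) :
    ∃ n, N ≤ n ∧ ∀ t < n, |g t| ≤ (n : ℤ) * n := by
  classical
  obtain ⟨c, hc⟩ := (Finsupp.mem_span_range_iff_exists_finsupp).1 hg
  by_cases h0 : c = 0
  · subst h0
    refine ⟨N, le_rfl, fun t _ => ?_⟩
    rw [← hc]
    simp only [Finsupp.sum_zero_index, Pi.zero_apply, abs_zero]
    positivity
  have hne : c.support.Nonempty := Finsupp.support_nonempty_iff.2 h0
  let i := c.support.max' hne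
  have hi : i ∈ c.support := Finset.max'_mem _ _
  have hci : c i ≠ 0 := Finsupp.mem_support_iff.1 hi
  let L : {j : I // j < i} →₀ ℤ := (c.erase i).subtypeDomain (fun j => j < i)
  have hL : (L.sum fun j a => a • D j.1) = (c.erase i).sum fun j a => a • D j := by
    refine Finsupp.sum_subtypeDomain_index (h := fun j a => a • D j) ?_
    intro j hj
    rw [Finsupp.support_erase, Finset.mem_erase] at hj
    exact lt_of_le_of_ne (Finset.le_max' _ _ hj.2) hj.1
  have hsum : g = (L.sum fun j a => a • D j.1) + c i • D i := by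
    rw [hL, ← hc]
    conv_lhs => rw [← Finsupp.erase_add_single i c]
    rw [Finsupp.sum_add_index']
    · rw [Finsupp.sum_single_index]
      simp
    · intro j; simp
    · intro j a b; exact add_smul a b (D j)
  obtain ⟨n, hn, h3⟩ := (hD i (he i)).2 L (c i) hci N
  refine ⟨n, hn, fun t ht => ?_⟩
  have := h3 t ht
  rw [hsum]
  simpa [smul_eq_mul] using this

/-- basic neighbourhoods of zero in a subgroup of `ℤ^ω` -/
theorem nhds_basic (A : AddSubgroup (ℕ → ℤ)) (U : Set A) (hU : U ∈ 𝓝 (0 : A)) :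
    ∃ k : ℕ, ∀ g : A, (∀ t < k, g.1 t = 0) → g ∈ U := by
  rw [nhds_subtype_eq_comap, Filter.mem_comap] at hU
  obtain ⟨V, hV, hVU⟩ := hU
  rw [ZeroMemClass.coe_zero, nhds_pi, Filter.mem_pi] at hV
  obtain ⟨J, hJ, W, hW, hWV⟩ := hV
  obtain ⟨k, hk⟩ := hJ.bddAbove
  refine ⟨k + 1, fun g hg => hVU ?_⟩
  refine hWV fun t ht => ?_
  have := hg t (Nat.lt_succ_of_le (hk ht))
  rw [this]
  exact mem_of_mem_nhds (hW t)

theorem basic_mem_nhds (A : AddSubgroup (ℕ → ℤ)) (k : ℕ) :
    {g : A | ∀ t < k, g.1 t = 0} ∈ 𝓝 (0 : A) := by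
  have : {g : A | ∀ t < k, g.1 t = 0} = ⋂ t ∈ Finset.range k, (fun g : A => g.1 t) ⁻¹' {0} := by
    ext g; simp
  rw [this]
  refine IsOpen.mem_nhds ?_ ?_
  · refine isOpen_biInter_finset fun t _ => ?_
    exact (isOpen_discrete _).preimage ((continuous_apply t).comp continuous_subtype_val)
  · simp

theorem obounded (A : AddSubgroup (ℕ → ℤ))
    (hA : ∀ g ∈ A, ∀ N : ℕ, ∃ n, N ≤ n ∧ ∀ t < n, |g t| ≤ (n : ℤ) * n) :
    OBounded (univ : Set A) := by
  classical
  intro U hU
  choose k hk using fun n => nhds_basic A (U n) (hU n)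
  let K : ℕ → ℕ := fun n => (∑ i ∈ Finset.range (n + 1), k i) + n
  have hkK : ∀ n, k n ≤ K n := fun n => by
    have := Finset.single_le_sum (f := k) (s := Finset.range (n + 1)) (fun _ _ => Nat.zero_le _)
      (Finset.mem_range.2 (Nat.lt_succ_self n))
    simp only [K]; omega
  have hKmono : StrictMono K := by
    refine strictMono_nat_of_lt_succ fun n => ?_
    simp only [K]
    rw [Finset.sum_range_succ _ (n + 1)]
    omega
  -- representatives
  let R : (n : ℕ) → (Fin (K n) → ℤ) → A := fun n s =>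
    if h : ∃ g : A, ∀ t : Fin (K n), g.1 t = s t then Classical.choose h else 0
  have hR : ∀ n s (g : A), (∀ t : Fin (K n), g.1 t = s t) → ∀ t : Fin (K n), (R n s).1 t = s t := by
    intro n s g hg
    have h : ∃ g : A, ∀ t : Fin (K n), g.1 t = s t := ⟨g, hg⟩
    simp only [R]
    rw [dif_pos h]
    exact Classical.choose_spec h
  let b : ℕ → ℤ := fun n => (K (n + 1) : ℤ) * K (n + 1)
  refine ⟨fun n => (Fintype.piFinset fun _ : Fin (K n) => Finset.Icc (-(b n)) (b n)).image (R n),
    fun g _ => ?_⟩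
  obtain ⟨N, hN, hgN⟩ := hA g.1 g.2 (K 0)
  -- the block of `N`
  obtain ⟨n, hn1, hn2⟩ : ∃ n, K n ≤ N ∧ N < K (n + 1) := by
    have hex : ∃ m, N < K m := ⟨N + 1, lt_of_lt_of_le (Nat.lt_succ_self N) hKmono.le_apply⟩
    have hpos : Nat.find hex ≠ 0 := by
      intro h
      have := Nat.find_spec hex
      rw [h] at this
      omega
    obtain ⟨n, hn⟩ := Nat.exists_eq_succ_of_ne_zero hpos
    refine ⟨n, ?_, ?_⟩
    · have := Nat.find_min hex (m := n) (by omega)
      omega
    · have := Nat.find_spec hex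
      rw [hn] at this
      exact this
  rw [mem_iUnion]
  refine ⟨n, ?_⟩
  let s : Fin (K n) → ℤ := fun t => g.1 t
  have hs : ∀ t, |s t| ≤ b n := by
    intro t
    have h1 := hgN t (lt_of_lt_of_le t.2 hn1)
    refine h1.trans ?_
    have h2 : (N : ℤ) ≤ K (n + 1) := by exact_mod_cast hn2.le
    have h3 : (0 : ℤ) ≤ N := by positivity
    simp only [b]
    nlinarith
  rw [Set.mem_add]
  refine ⟨R n s, ?_, g - R n s, ?_, by abel⟩
  · rw [Finset.mem_coe]
    refine Finset.mem_image.2 ⟨s, ?_, rfl⟩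
    rw [Fintype.mem_piFinset]
    intro t
    rw [Finset.mem_Icc]
    exact abs_le.1 (hs t)
  · refine hk n _ fun t ht => ?_
    have h1 := hR n s g (fun _ => rfl) ⟨t, lt_of_lt_of_le ht (hkK n)⟩
    have h2 : (g - R n s).1 t = g.1 t - (R n s).1 t := rfl
    rw [h2]
    have h3 : (R n s).1 t = g.1 t := h1
    rw [h3, sub_self]

/-- bound of the entries of a finite set below `k` -/
def bd {A : AddSubgroup (ℕ → ℤ)} (k : ℕ) (F : Finset A) : ℕ :=
  F.sup fun p => (Finset.range k).sup fun t => (p.1 t).natAbs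

theorem le_bd {A : AddSubgroup (ℕ → ℤ)} {k : ℕ} {F : Finset A} {p : A} (hp : p ∈ F) {t : ℕ}
    (ht : t < k) : (p.1 t).natAbs ≤ bd k F := by
  have h1 : (p.1 t).natAbs ≤ (Finset.range k).sup fun t => (p.1 t).natAbs :=
    Finset.le_sup (f := fun t => (p.1 t).natAbs) (Finset.mem_range.2 ht)
  exact h1.trans (Finset.le_sup (f := fun p : A =>
    (Finset.range k).sup fun t => (p.1 t).natAbs) hp)

/-- the number played by player I -/
def KK {A : AddSubgroup (ℕ → ℤ)} (L : List (Finset A)) : ℕ :=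
  L.foldl (fun k F => k + 2 + bd k F) 1

theorem playerI (A : AddSubgroup (ℕ → ℤ))
    (hA : ∀ k : ℕ → ℕ, StrictMono k → ∃ g ∈ A, ∀ l t, k l = t + 1 → (k (l + 1) : ℤ) ≤ |g t|) :
    PlayerIWins (univ : Set A) := by
  refine ⟨fun L => {g : A | ∀ t < KK L, g.1 t = 0}, fun L => basic_mem_nhds A _, fun F hF => ?_⟩
  let k : ℕ → ℕ := fun n => KK ((List.range n).map F)
  have hk : ∀ n, k (n + 1) = k n + 2 + bd (k n) (F n) := by
    intro n
    simp only [k, KK]
    rw [List.range_succ, List.map_append, List.foldl_append]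
    rfl
  have hk0 : k 0 = 1 := rfl
  have hmono : StrictMono k := strictMono_nat_of_lt_succ fun n => by rw [hk]; omega
  obtain ⟨g, hgA, hg⟩ := hA k hmono
  have := hF (mem_univ (⟨g, hgA⟩ : A))
  rw [mem_iUnion] at this
  obtain ⟨n, hn⟩ := this
  rw [Set.mem_add] at hn
  obtain ⟨p, hp, u, hu, hpu⟩ := hn
  have hkpos : 1 ≤ k n := by
    have := hmono.monotone (Nat.zero_le n)
    omega
  obtain ⟨t, ht⟩ : ∃ t, k n = t + 1 := ⟨k n - 1, by omega⟩
  have h1 := hg n t ht
  have h2 : u.1 t = 0 := hu t (by show t < k n; omega)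
  have h3 : g t = p.1 t := by
    have : (p + u).1 t = g t := by rw [hpu]
    rw [← this]
    show p.1 t + u.1 t = p.1 t
    rw [h2, add_zero]
  have h4 : (p.1 t).natAbs ≤ bd (k n) (F n) := le_bd hp (by omega)
  have h5 := hk n
  rw [h3, Int.abs_eq_natAbs] at h1
  omega

theorem main (hcov : ∀ S : Set (Set (ℕ → ℤ)), #S < 𝔠 → (∀ U ∈ S, IsOpen U ∧ Dense U) →
    (⋂₀ S).Nonempty) :
    ∃ A : AddSubgroup (ℕ → ℤ), OBounded (univ : Set A) ∧ PlayerIWins (univ : Set A) := by
  classical
  let I : Type := (𝔠 : Cardinal.{0}).ord.ToType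
  have hI : ∀ i : I, #{j : I // j < i} < 𝔠 := fun i => by
    have h := Cardinal.mk_Iio_lt i (by simp [I])
    rw [Cardinal.mk_ord_toType] at h
    exact h
  have hcard : #{k : ℕ → ℕ // StrictMono k} ≤ #I := by
    have h1 : #{k : ℕ → ℕ // StrictMono k} ≤ #(ℕ → ℕ) := Cardinal.mk_subtype_le _
    refine h1.trans ?_
    rw [Cardinal.mk_ord_toType]
    simp
  obtain ⟨ι⟩ := (Cardinal.le_def _ _).mp hcard
  haveI : Nonempty {k : ℕ → ℕ // StrictMono k} := ⟨⟨id, strictMono_id⟩⟩
  let e' : I → {k : ℕ → ℕ // StrictMono k} := Function.invFun ι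
  have he' : Function.Surjective e' := Function.invFun_surjective ι.injective
  let e : I → ℕ → ℕ := fun i => (e' i).1
  have he : ∀ i, StrictMono (e i) := fun i => (e' i).2
  obtain ⟨D, hD⟩ := exists_req e hI hcov
  refine ⟨(Submodule.span ℤ (range D)).toAddSubgroup, obounded _ ?_, playerI _ ?_⟩
  · intro g hg N
    exact small he hD g hg N
  · intro k hk
    obtain ⟨i, hi⟩ := he' ⟨k, hk⟩
    have hik : e i = k := by simp only [e]; rw [hi]
    refine ⟨D i, Submodule.subset_span ⟨i, rfl⟩, ?_⟩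
    have := (hD i (he i)).1
    rwa [hik] at this

theorem cov_of_CH (h : Cardinal.aleph 1 = Cardinal.continuum.{0}) (S : Set (Set (ℕ → ℤ))) (hS : #S < 𝔠)
    (hU : ∀ U ∈ S, IsOpen U ∧ Dense U) : (⋂₀ S).Nonempty := by
  rw [← h, ← Cardinal.succ_aleph0, Order.lt_succ_iff, Cardinal.mk_le_aleph0_iff] at hS
  have h1 : S.Countable := hS.to_set
  exact (dense_sInter_of_isOpen (fun U hUS => (hU U hUS).1) h1 (fun U hUS => (hU U hUS).2)).nonempty

theorem metr (A : AddSubgroup (ℕ → ℤ)) :
    TopologicalSpace.MetrizableSpace A ∧ TopologicalSpace.SeparableSpace A := by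
  haveI : SecondCountableTopology A :=
    Topology.IsInducing.secondCountableTopology (f := ((↑) : A → (ℕ → ℤ))) ⟨rfl⟩
  exact ⟨TopologicalSpace.metrizableSpace_of_t3_secondCountable A, inferInstance⟩

/-- No hypothesis is assumed. (1) There is a notion of forcing `P` all of whose conditions force that
`ω₁` is preserved and that the continuum hypothesis holds. (2) If no union of fewer than
continuum many nowhere dense sets covers the Baire space (in particular under the continuum
hypothesis (3), and under Martin's axiom), then there is a subgroup `A` of `ℤ^ω`, a separable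
metrizable abelian group, such that `A` is `o`-bounded and player I has a winning strategy in the
game `OF(A)`. -/
theorem result :
    (∃ (P : Type) (_ : Preorder P), Nonempty P ∧ ∀ p : P,
      p ∈ Pool.Agent.Helper292.ForceCH.OmegaOnePreserved P ∧
      p ∈ Pool.Agent.Helper292.ForceCH.CHHolds P) ∧
    ((∀ S : Set (Set (ℕ → ℤ)), #S < 𝔠 → (∀ U ∈ S, IsOpen U ∧ Dense U) → (⋂₀ S).Nonempty) →
      ∃ A : AddSubgroup (ℕ → ℤ),
        (TopologicalSpace.MetrizableSpace A ∧ TopologicalSpace.SeparableSpace A) ∧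
        OBounded (univ : Set A) ∧ PlayerIWins (univ : Set A)) ∧
    (Cardinal.aleph 1 = Cardinal.continuum.{0} →
      ∃ A : AddSubgroup (ℕ → ℤ),
        (TopologicalSpace.MetrizableSpace A ∧ TopologicalSpace.SeparableSpace A) ∧
        OBounded (univ : Set A) ∧ PlayerIWins (univ : Set A)) := by
  refine ⟨?_, fun h => ?_, fun h => ?_⟩
  · obtain ⟨P, i, h1, h2⟩ := Pool.Agent.Helper292.ForceCH.exists_forcing
    exact ⟨P, i, h1, fun p => ⟨(h2 p).1, (h2 p).2.2⟩⟩
  · obtain ⟨A, hA⟩ := main h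
    exact ⟨A, metr A, hA⟩
  · obtain ⟨A, hA⟩ := main (cov_of_CH h)
    exact ⟨A, metr A, hA⟩

end Pool.Agent.Results.MP_b00c97_gt.ConsistentlyYes
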