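import Mathlib

open Topology Pointwise Set

namespace Pool.Agent.Results.MP_b00c97_gt.Square

section defs
variable {G : Type*} [Group G] [TopologicalSpace G]

/-- `A ⊆ G` is `o`-bounded: for every sequence of neighbourhoods `U n` of the identity there are
finite sets `F n ⊆ G` with `A ⊆ ⋃ n, F n * U n`. -/
def OBounded (A : Set G) : Prop :=
  ∀ U : ℕ → Set G, (∀ n, U n ∈ 𝓝 (1 : G)) → ∃ F : ℕ → Finset G, A ⊆ ⋃ n, (F n : Set G) * U n

/-- Player I has a winning strategy in the game `OF(A)`: a rule `σ` which assigns to the list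
`[F 0, ..., F (n - 1)]` of the earlier moves of player II a neighbourhood of the identity, such that
no sequence `F` of finite sets satisfies `A ⊆ ⋃ n, F n * U n`, where
`U n = σ [F 0, ..., F (n - 1)]`. -/
def PlayerIWins (A : Set G) : Prop :=
  ∃ σ : List (Finset G) → Set G, (∀ L, σ L ∈ 𝓝 (1 : G)) ∧
    ∀ F : ℕ → Finset G, ¬ A ⊆ ⋃ n, (F n : Set G) * σ ((List.range n).map F)

end defs

section rec
variable {G : Type*}

open Classical in
/-- the neighbourhoods below all positions coded by numbers `< n` -/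
noncomputable def W (σ : List (Finset G) → Set G) (c : Set G → ℕ → G) : ℕ → Set G
  | n => ⋂ s : {s : List (Fin n) // s.length ≤ n}, σ (s.1.map fun (a : Fin n) =>
      Finset.univ.image fun p : Fin ((a : ℕ) + 1) × Fin ((a : ℕ) + 1) => c (W σ c p.1) p.2)
termination_by n => n
decreasing_by
  exact lt_of_le_of_lt (Nat.lt_succ_iff.1 p.1.2) a.2

open Classical in
/-- the move with code `a` -/
noncomputable def mv (σ : List (Finset G) → Set G) (c : Set G → ℕ → G) (a : ℕ) : Finset G :=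
  Finset.univ.image fun p : Fin (a + 1) × Fin (a + 1) => c (W σ c p.1) p.2

theorem W_eq (σ : List (Finset G) → Set G) (c : Set G → ℕ → G) (n : ℕ) :
    W σ c n = ⋂ s : {s : List (Fin n) // s.length ≤ n}, σ (s.1.map fun (a : Fin n) => mv σ c a) := by
  rw [W]
  rfl

theorem W_nhds [Group G] [TopologicalSpace G] {σ : List (Finset G) → Set G} (hσ : ∀ L, σ L ∈ 𝓝 (1 : G)) (c : Set G → ℕ → G)
    (n : ℕ) : W σ c n ∈ 𝓝 (1 : G) := by
  rw [W_eq]
  have : Finite {s : List (Fin n) // s.length ≤ n} := (List.finite_length_le (Fin n) n).to_subtype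
  exact Filter.iInter_mem.2 fun s => hσ _

theorem W_sub (σ : List (Finset G) → Set G) (c : Set G → ℕ → G) {n : ℕ} (l : List ℕ)
    (h1 : l.length ≤ n) (h2 : ∀ a ∈ l, a < n) : W σ c n ⊆ σ (l.map (mv σ c)) := by
  rw [W_eq]
  have h3 : ((l.pmap Fin.mk h2).map fun (a : Fin n) => mv σ c a) = l.map (mv σ c) := by
    rw [List.map_pmap]
    exact List.pmap_eq_map _
  intro x hx
  rw [mem_iInter] at hx
  have := hx ⟨l.pmap Fin.mk h2, by rw [List.length_pmap]; exact h1⟩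
  rw [← h3]
  exact this

open Classical in
theorem mem_mv (σ : List (Finset G) → Set G) (c : Set G → ℕ → G) {a n k : ℕ} (hn : n ≤ a)
    (hk : k ≤ a) : c (W σ c n) k ∈ mv σ c a := by
  unfold mv
  refine Finset.mem_image.2 ⟨(⟨n, by omega⟩, ⟨k, by omega⟩), Finset.mem_univ _, rfl⟩

end rec

variable {G : Type*} [Group G] [TopologicalSpace G]

theorem pairs {A : Set G} (h : OBounded (A ×ˢ A : Set (G × G))) (U : ℕ → Set G)
    (hU : ∀ n, U n ∈ 𝓝 (1 : G)) : ∃ E : ℕ → Finset G, ∀ x ∈ A, ∀ y ∈ A, ∃ n,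
      (∃ p ∈ E n, p⁻¹ * x ∈ U n) ∧ (∃ p ∈ E n, p⁻¹ * y ∈ U n) := by
  classical
  obtain ⟨F, hF⟩ := h (fun n => U n ×ˢ U n) (fun n => prod_mem_nhds (hU n) (hU n))
  refine ⟨fun n => (F n).image Prod.fst ∪ (F n).image Prod.snd, fun x hx y hy => ?_⟩
  have := hF (mk_mem_prod hx hy)
  rw [mem_iUnion] at this
  obtain ⟨n, hn⟩ := this
  rw [Set.mem_mul] at hn
  obtain ⟨p, hp, u, hu, hpu⟩ := hn
  have hp' : p ∈ F n := hp
  refine ⟨n, ⟨p.1, ?_, ?_⟩, ⟨p.2, ?_, ?_⟩⟩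
  · exact Finset.mem_union_left _ (Finset.mem_image_of_mem _ hp')
  · have : x = p.1 * u.1 := by rw [← Prod.fst_mul, hpu]
    rw [this, inv_mul_cancel_left]; exact hu.1
  · exact Finset.mem_union_right _ (Finset.mem_image_of_mem _ hp')
  · have : y = p.2 * u.2 := by rw [← Prod.snd_mul, hpu]
    rw [this, inv_mul_cancel_left]; exact hu.2

variable [IsTopologicalGroup G]

theorem exists_half {A : Set G} (h : OBounded (A ×ˢ A : Set (G × G))) (U : Set G)
    (hU : U ∈ 𝓝 (1 : G)) : ∃ (V : Set G) (c : ℕ → G), V ∈ 𝓝 (1 : G) ∧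
      (∀ a ∈ V, ∀ b ∈ V, ∀ d ∈ V, a * b⁻¹ * d ∈ U) ∧ ∀ x ∈ A, ∃ k, (c k)⁻¹ * x ∈ V := by
  obtain ⟨V0, hV0, hsplit⟩ := exists_nhds_one_split4 hU
  have hV : V0 ∩ V0⁻¹ ∈ 𝓝 (1 : G) := by
    refine Filter.inter_mem hV0 ?_
    have := inv_mem_nhds_one G hV0
    exact this
  obtain ⟨E, hE⟩ := pairs h (fun _ => V0 ∩ V0⁻¹) (fun _ => hV)
  have hcount : (insert (1 : G) (⋃ n, (E n : Set G))).Countable :=
    (countable_iUnion fun n => (E n).countable_toSet).insert 1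
  obtain ⟨c, hc⟩ := hcount.exists_eq_range ⟨1, mem_insert _ _⟩
  refine ⟨V0 ∩ V0⁻¹, c, hV, ?_, ?_⟩
  · rintro a ⟨ha, -⟩ b ⟨-, hb⟩ d ⟨hd, -⟩
    have := hsplit ha hb hd (mem_of_mem_nhds hV0)
    rwa [mul_one] at this
  · intro x hx
    obtain ⟨n, ⟨p, hp, hpx⟩, -⟩ := hE x hx x hx
    have : p ∈ insert (1 : G) (⋃ n, (E n : Set G)) := mem_insert_of_mem _ (mem_iUnion.2 ⟨n, hp⟩)
    rw [hc] at this
    obtain ⟨k, rfl⟩ := this
    exact ⟨k, hpx⟩

/-- Let `A` be a subset of a topological group `G`. If `A × A` is `o`-bounded in `G × G`, then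
player I has no winning strategy in `OF(A)`. -/
theorem result (A : Set G) (h : OBounded (A ×ˢ A : Set (G × G))) : ¬ PlayerIWins A := by
  classical
  rintro ⟨σ, hσ, hwin⟩
  have hex : ∀ U : Set G, ∃ (V : Set G) (c : ℕ → G), U ∈ 𝓝 (1 : G) → V ∈ 𝓝 (1 : G) ∧
      (∀ a ∈ V, ∀ b ∈ V, ∀ d ∈ V, a * b⁻¹ * d ∈ U) ∧ ∀ x ∈ A, ∃ k, (c k)⁻¹ * x ∈ V := by
    intro U
    by_cases hU : U ∈ 𝓝 (1 : G)
    · obtain ⟨V, c, hV⟩ := exists_half h U hU
      exact ⟨V, c, fun _ => hV⟩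
    · exact ⟨∅, fun _ => 1, fun h => absurd h hU⟩
  choose V c hVc using hex
  have hW : ∀ n, W σ c n ∈ 𝓝 (1 : G) := W_nhds hσ c
  obtain ⟨E, hE⟩ := pairs h (fun n => V (W σ c n)) (fun n => (hVc _ (hW n)).1)
  -- bound
  have hf : ∀ n, ∃ K : ℕ, ∀ p ∈ E n, ∀ x ∈ A, p⁻¹ * x ∈ V (W σ c n) →
      ∃ k ≤ K, (c (W σ c n) k)⁻¹ * x ∈ W σ c n := by
    intro n
    obtain ⟨-, hmul, hcov⟩ := hVc _ (hW n)
    have hp : ∀ p : G, ∃ k : ℕ, ∀ x ∈ A, p⁻¹ * x ∈ V (W σ c n) →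
        (c (W σ c n) k)⁻¹ * x ∈ W σ c n := by
      intro p
      by_cases hx : ∃ x ∈ A, p⁻¹ * x ∈ V (W σ c n)
      · obtain ⟨x0, hx0, hpx0⟩ := hx
        obtain ⟨k, hk⟩ := hcov x0 hx0
        refine ⟨k, fun x _ hpx => ?_⟩
        have := hmul _ hk _ hpx0 _ hpx
        have e : (c (W σ c n) k)⁻¹ * x0 * (p⁻¹ * x0)⁻¹ * (p⁻¹ * x) = (c (W σ c n) k)⁻¹ * x := by
          group
        rwa [e] at this
      · push Not at hx
        exact ⟨0, fun x hxA hpx => absurd hpx (hx x hxA)⟩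
    choose k hk using hp
    refine ⟨(E n).sup k, fun p hpE x hxA hpx => ⟨k p, Finset.le_sup hpE, hk p x hxA hpx⟩⟩
  choose f hf using hf
  let P : G → ℕ → Prop := fun x n => ∃ k ≤ f n, (c (W σ c n) k)⁻¹ * x ∈ W σ c n
  have hpair : ∀ x ∈ A, ∀ y ∈ A, ∃ n, P x n ∧ P y n := by
    intro x hx y hy
    obtain ⟨n, ⟨p, hp, hpx⟩, ⟨p', hp', hpy⟩⟩ := hE x hx y hy
    exact ⟨n, hf n p hp x hx hpx, hf n p' hp' y hy hpy⟩
  let g : ℕ → ℕ := fun m => max m ((Finset.range (m + 1)).sup f)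
  have hg1 : ∀ m, m ≤ g m := fun m => le_max_left _ _
  have hg2 : ∀ m n, n ≤ m → f n ≤ g m := fun m n hn =>
    (Finset.le_sup (f := f) (Finset.mem_range.2 (by omega))).trans (le_max_right _ _)
  have play : ∀ t r : ℕ → ℕ, (∀ j, j ≤ t j) → (∀ i j, i < j → g (r i) < t j) →
      ∃ x ∈ A, ∀ j n, t j ≤ n → n ≤ r j → ¬ P x n := by
    intro t r ht htr
    have h1 := hwin (fun j => mv σ c (g (r j)))
    rw [not_subset] at h1
    obtain ⟨x, hxA, hx⟩ := h1
    refine ⟨x, hxA, ?_⟩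
    rintro j n hn1 hn2 ⟨k, hk, hkx⟩
    apply hx
    rw [mem_iUnion]
    refine ⟨j, Set.mem_mul.2 ⟨c (W σ c n) k, ?_, (c (W σ c n) k)⁻¹ * x, ?_, by group⟩⟩
    · exact mem_mv σ c (hn2.trans (hg1 _)) (hk.trans (hg2 _ _ hn2))
    · have h2 : (List.range j).map (fun i => mv σ c (g (r i))) =
          ((List.range j).map (fun i => g (r i))).map (mv σ c) := by
        rw [List.map_map]; rfl
      rw [h2]
      refine W_sub σ c _ ?_ ?_ hkx
      · rw [List.length_map, List.length_range]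
        exact (ht j).trans hn1
      · intro a ha
        rw [List.mem_map] at ha
        obtain ⟨i, hi, rfl⟩ := ha
        exact (htr i j (List.mem_range.1 hi)).trans_le hn1
  -- the dividing points
  let p : ℕ → ℕ := fun k => Nat.rec 0 (fun _ m => g m + 1) k
  have hp0 : p 0 = 0 := rfl
  have hps : ∀ k, p (k + 1) = g (p k) + 1 := fun k => rfl
  have hpm : StrictMono p := strictMono_nat_of_lt_succ fun k => by
    rw [hps]; exact Nat.lt_succ_of_le (hg1 _)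
  have hpk : ∀ k, k ≤ p k := fun k => hpm.id_le k
  obtain ⟨x, hxA, hx⟩ := play (fun j => p (2 * j)) (fun j => p (2 * j + 1))
    (fun j => (by omega : j ≤ 2 * j).trans (hpk _)) (fun i j hij => by
      have h1 : g (p (2 * i + 1)) < p (2 * i + 1 + 1) := by rw [hps (2 * i + 1)]; exact Nat.lt_succ_self _
      exact h1.trans_le (hpm.monotone (by omega : 2 * i + 1 + 1 ≤ 2 * j)))
  obtain ⟨y, hyA, hy⟩ := play (fun j => p (2 * j + 1)) (fun j => p (2 * j + 2))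
    (fun j => (by omega : j ≤ 2 * j + 1).trans (hpk _)) (fun i j hij => by
      have h1 : g (p (2 * i + 2)) < p (2 * i + 2 + 1) := by rw [hps (2 * i + 2)]; exact Nat.lt_succ_self _
      exact h1.trans_le (hpm.monotone (by omega : 2 * i + 2 + 1 ≤ 2 * j + 1)))
  obtain ⟨n, hn1, hn2⟩ := hpair x hxA y hyA
  -- locate `n`
  obtain ⟨k, hk1, hk2⟩ : ∃ k, p k ≤ n ∧ n ≤ p (k + 1) := by
    have hex : ∃ k, n < p (k + 1) := ⟨n, (hpk n).trans_lt (hpm (Nat.lt_succ_self n))⟩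
    refine ⟨Nat.find hex, ?_, (Nat.find_spec hex).le⟩
    rcases hfe : Nat.find hex with _ | i
    · rw [hp0]; exact Nat.zero_le _
    · have := Nat.find_min hex (m := i) (by omega)
      push Not at this
      exact this
  rcases Nat.even_or_odd' k with ⟨j, rfl | rfl⟩
  · exact hx j n hk1 hk2 hn1
  · exact hy j n hk1 hk2 hn2

end Pool.Agent.Results.MP_b00c97_gt.Square
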